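import Pool.Agent.U515.SF.Rate

set_option autoImplicit false

/-!
# MP_47c51c: sets of integers up to `N` without gcd-sunflowers, and the function `f_r(N)`

`GcdFree r A` is the condition of the problem: `A` has no `r`-element gcd-sunflower.  `EqualFree r A`
says that no `r` elements of `A` have one common pairwise gcd; it implies `GcdFree r A`, and `f_r(N)` is
the largest size of such a set in `{1, …, N}`.  `SunFree r F`: the finite family `F` of finite sets has
no `r` members with the same pairwise intersection.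

No condition on `Ω` is imposed here.  For every `r ≥ 3` we prove

* `Rate r`: `|A| ≤ N ^ (C log log log N / log log N)` for all gcd-sunflower-free sets
  `A ⊆ {1, …, N}`, `N ≥ exp (exp e)`, `e = exp 1`, where `C` depends only on `r`;
* `SameGcd r`: hence `f_r(N) ≤ N ^ (C log log log N / log log N)`;
* `General r`: if `A` is a gcd-sunflower-free set of positive integers `a` with `d(a) ≤ D` and
  `ω(a) ≤ W` and sunflower-free families of `j`-sets have at most `φ j` members (`j ≤ W`), then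
  `|A| ≤ D ^ 2 * (φ 0 + ... + φ W)`.
-/

namespace Pool.Agent.Results.MP_47c51c_nt.EqualGcds

open Finset Pool.Agent.U515.SF

/-- No `r` elements of `A` share one common pairwise gcd. -/
def EqualFree (r : ℕ) (A : Finset ℕ) : Prop :=
  ¬ ∃ S : Finset ℕ, S ⊆ A ∧ S.card = r ∧ ∃ d : ℕ, ∀ a ∈ S, ∀ b ∈ S, a ≠ b → Nat.gcd a b = d

/-- The bound for gcd-sunflower-free subsets of `{1, …, N}`. -/
def Rate (r : ℕ) : Prop :=
  ∃ C : ℝ, 0 < C ∧ ∀ N : ℕ, Real.exp (Real.exp (Real.exp 1)) ≤ N →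
    ∀ A : Finset ℕ, (∀ a ∈ A, 0 < a ∧ a ≤ N) → GcdFree r A →
      (A.card : ℝ) ≤ (N : ℝ) ^ (C * Real.log (Real.log (Real.log N)) / Real.log (Real.log N))

/-- The bound for `f_r(N)`. -/
def SameGcd (r : ℕ) : Prop :=
  ∃ C : ℝ, 0 < C ∧ ∀ N : ℕ, Real.exp (Real.exp (Real.exp 1)) ≤ N →
    ∀ A : Finset ℕ, (∀ a ∈ A, 0 < a ∧ a ≤ N) → EqualFree r A →
      (A.card : ℝ) ≤ (N : ℝ) ^ (C * Real.log (Real.log (Real.log N)) / Real.log (Real.log N))

/-- The general reduction to sunflower-free families of sets. -/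
def General (r : ℕ) : Prop :=
  ∀ D W : ℕ, ∀ φ : ℕ → ℕ,
    (∀ j ≤ W, ∀ F : Finset (Finset ℕ), (∀ S ∈ F, S.card = j) → SunFree r F → F.card ≤ φ j) →
    ∀ A : Finset ℕ, (∀ a ∈ A, 0 < a ∧ a.divisors.card ≤ D ∧ a.primeFactors.card ≤ W) →
      GcdFree r A → A.card ≤ D ^ 2 * ∑ j ∈ range (W + 1), φ j

theorem result : ∀ r : ℕ, 3 ≤ r → Rate r ∧ SameGcd r ∧ General r := by
  intro r hr
  refine ⟨real_bound r hr, ?_, ?_⟩
  · obtain ⟨C, hC, h⟩ := real_bound r hr
    refine ⟨C, hC, fun N hN A hA hfree => h N hN A hA ?_⟩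
    rintro ⟨S, hS, hSr, d, _, hd, _⟩
    exact hfree ⟨S, hS, hSr, d, hd⟩
  · intro D W φ hφ A hA hfree
    exact transfer2 r (by omega) D W φ hφ A (fun a ha => (hA a ha).1)
      (fun a ha => (hA a ha).2.1) (fun a ha => (hA a ha).2.2) hfree

end Pool.Agent.Results.MP_47c51c_nt.EqualGcds
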