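import Pool.Agent.U515.SF.Enc

set_option autoImplicit false

/-!
# MP_47c51c: gcd-sunflowers with fixed `Ω` and the Erdős–Rado sunflower problem

`GcdFree r A` is the condition of the problem: `A` has no `r`-element gcd-sunflower.  `SunFree r F` says
that the finite family `F` of finite sets has no `r` members with the same pairwise intersection (no
sunflower with `r` petals in the sense of Erdős and Rado).

We prove, for every `r ≥ 3`:

* `Transfer r`: if, for every `j ≤ k`, every sunflower-free family of `j`-element sets has at most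
  `φ j` members, then every gcd-sunflower-free set of positive integers with `Ω = k` has at most
  `2 ^ k * (φ 0 + ... + φ k)` elements;
* `Q1For r ↔ ErdosRado r`: the statement of the problem for `r` is equivalent to the conjecture of
  Erdős and Rado for `r` (sunflower-free families of `k`-sets have at most `c ^ k` members);
* `LogBound r`: without any hypothesis, every such `A` has at most
  `(256 * r * (⌊log₄ r⌋ + 1) * (⌊log₂ k⌋ + 1)) ^ k` elements.
-/

namespace Pool.Agent.Results.MP_47c51c_nt.SunflowerTransfer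

open Finset Pool.Agent.U515.SF

/-- The statement of Q1 for one `r`. -/
def Q1For (r : ℕ) : Prop :=
  ∃ c : ℝ, 0 < c ∧ ∀ k : ℕ, ∀ A : Finset ℕ,
    (∀ a ∈ A, 0 < a ∧ a.primeFactorsList.length = k) → GcdFree r A → (A.card : ℝ) ≤ c ^ k

/-- The conjecture of Erdős and Rado for one `r`. -/
def ErdosRado (r : ℕ) : Prop :=
  ∃ c : ℝ, 0 < c ∧ ∀ k : ℕ, ∀ F : Finset (Finset ℕ),
    (∀ S ∈ F, S.card = k) → SunFree r F → (F.card : ℝ) ≤ c ^ k

/-- The quantitative reduction. -/
def Transfer (r : ℕ) : Prop :=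
  ∀ k : ℕ, ∀ φ : ℕ → ℕ,
    (∀ j ≤ k, ∀ F : Finset (Finset ℕ), (∀ S ∈ F, S.card = j) → SunFree r F → F.card ≤ φ j) →
    ∀ A : Finset ℕ, (∀ a ∈ A, 0 < a ∧ a.primeFactorsList.length = k) → GcdFree r A →
      A.card ≤ 2 ^ k * ∑ j ∈ range (k + 1), φ j

/-- The unconditional bound. -/
def LogBound (r : ℕ) : Prop :=
  ∀ k : ℕ, ∀ A : Finset ℕ, (∀ a ∈ A, 0 < a ∧ a.primeFactorsList.length = k) → GcdFree r A →
    A.card ≤ (256 * r * (Nat.log 4 r + 1) * (Nat.log 2 k + 1)) ^ k

lemma succ_le_two_pow (k : ℕ) : k + 1 ≤ 2 ^ k := Nat.lt_two_pow_self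

lemma q1For_of_erdosRado (r : ℕ) (hr : 3 ≤ r) (h : ErdosRado r) : Q1For r := by
  obtain ⟨c, _, h⟩ := h
  set C : ℝ := max c 1 with hC
  have hC1 : 1 ≤ C := le_max_right _ _
  refine ⟨4 * C, by positivity, ?_⟩
  intro k A hA hfree
  have h1 := transfer r (by omega) k (fun j => ⌊C ^ j⌋₊) (by
    intro j _ F hF hFf
    apply Nat.le_floor
    rcases le_or_gt 0 c with hc | hc
    · exact (h j F hF hFf).trans (pow_le_pow_left₀ hc (le_max_left _ _) j)
    · exfalso
      linarith) A hA hfree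
  have h2 : ((∑ j ∈ range (k + 1), ⌊C ^ j⌋₊ : ℕ) : ℝ) ≤ 2 ^ k * C ^ k := by
    calc ((∑ j ∈ range (k + 1), ⌊C ^ j⌋₊ : ℕ) : ℝ) = ∑ j ∈ range (k + 1), ((⌊C ^ j⌋₊ : ℕ) : ℝ) := by
          push_cast
          rfl
      _ ≤ ∑ j ∈ range (k + 1), C ^ k := by
          refine Finset.sum_le_sum (fun j hj => ?_)
          refine (Nat.floor_le (by positivity)).trans (pow_le_pow_right₀ hC1 ?_)
          have := mem_range.mp hj
          omega
      _ = (k + 1 : ℕ) * C ^ k := by rw [Finset.sum_const, card_range, nsmul_eq_mul]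
      _ ≤ 2 ^ k * C ^ k := by
          refine mul_le_mul_of_nonneg_right ?_ (by positivity)
          exact_mod_cast succ_le_two_pow k
  calc (A.card : ℝ) ≤ ((2 ^ k * ∑ j ∈ range (k + 1), ⌊C ^ j⌋₊ : ℕ) : ℝ) := by exact_mod_cast h1
    _ = 2 ^ k * ((∑ j ∈ range (k + 1), ⌊C ^ j⌋₊ : ℕ) : ℝ) := by push_cast; rfl
    _ ≤ 2 ^ k * (2 ^ k * C ^ k) := mul_le_mul_of_nonneg_left h2 (by positivity)
    _ = (4 * C) ^ k := by
        rw [mul_pow, ← mul_assoc, ← mul_pow]
        norm_num

lemma erdosRado_of_q1For (r : ℕ) (h : Q1For r) : ErdosRado r := by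
  classical
  obtain ⟨c, hc, h⟩ := h
  refine ⟨c, hc, ?_⟩
  intro k F hF hFf
  have h1 := h k (F.image enc) (by
    intro a ha
    obtain ⟨S, hS, rfl⟩ := Finset.mem_image.mp ha
    exact ⟨enc_pos S, by rw [enc_length, hF S hS]⟩) (gcdFree_of_sunFree r F hFf)
  rwa [Finset.card_image_of_injective _ enc_inj] at h1

lemma logBound (r : ℕ) (hr : 3 ≤ r) : LogBound r := by
  intro k A hA hfree
  set M : ℕ := 64 * (r * (Nat.log 4 r + 1) * (Nat.log 2 k + 1)) with hM
  have hM1 : 1 ≤ M := by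
    rw [hM]
    have : 0 < r * (Nat.log 4 r + 1) * (Nat.log 2 k + 1) := by positivity
    omega
  have h1 := transfer r (by omega) k (fun _ => M ^ k) (by
    intro j hj F hF hFf
    refine (sunflower_bound r j (by omega) F hF hFf).trans ?_
    calc (64 * (r * (Nat.log 4 r + 1) * (Nat.log 2 j + 1))) ^ j
        ≤ M ^ j := by
          apply Nat.pow_le_pow_left
          rw [hM]
          have := Nat.log_mono_right (b := 2) hj
          gcongr
      _ ≤ M ^ k := Nat.pow_le_pow_right hM1 hj) A hA hfree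
  calc A.card ≤ 2 ^ k * ∑ j ∈ range (k + 1), M ^ k := h1
    _ = 2 ^ k * ((k + 1) * M ^ k) := by rw [Finset.sum_const, card_range, smul_eq_mul]
    _ ≤ 2 ^ k * (2 ^ k * M ^ k) := by
        gcongr
        exact succ_le_two_pow k
    _ = (256 * r * (Nat.log 4 r + 1) * (Nat.log 2 k + 1)) ^ k := by
        rw [← mul_pow, ← mul_pow, hM]
        congr 1
        ring

theorem result : ∀ r : ℕ, 3 ≤ r → Transfer r ∧ (Q1For r ↔ ErdosRado r) ∧ LogBound r := by
  intro r hr
  refine ⟨?_, ⟨erdosRado_of_q1For r, q1For_of_erdosRado r hr⟩, logBound r hr⟩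
  intro k φ hφ A hA hfree
  exact transfer r (by omega) k φ hφ A hA hfree

end Pool.Agent.Results.MP_47c51c_nt.SunflowerTransfer
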